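import Pool.Agent.W721.BQ.RecT

set_option autoImplicit false

/-!
An invariant measure on the orbit closure of the origin (helper721).
-/

namespace Pool.Agent.W721.BQ

open MeasureTheory Filter Topology
open scoped BoundedContinuousFunction ENNReal

section

variable {Z : Type} [AddCommGroup Z] [TopologicalSpace Z] [IsTopologicalAddGroup Z]
  [CompactSpace Z] [T2Space Z] [SecondCountableTopology Z] [MeasurableSpace Z] [BorelSpace Z]

/-- empirical measures -/
noncomputable def Pn (α : Z) (n : ℕ) : Measure (Z × Z) :=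
  ((n + 1 : ℕ) : ℝ≥0∞)⁻¹ • ∑ k ∈ Finset.range (n + 1), Measure.dirac (Sk α k (0, 0))

instance (α : Z) (n : ℕ) : IsProbabilityMeasure (Pn α n) := by
  constructor
  unfold Pn
  rw [Measure.smul_apply, Measure.finsetSum_apply]
  simp only [measure_univ, Finset.sum_const, Finset.card_range, nsmul_eq_mul, mul_one, smul_eq_mul]
  exact ENNReal.inv_mul_cancel (by simp) (by simp)

lemma Pn_integral (α : Z) (n : ℕ) (f : (Z × Z) →ᵇ ℝ) :
    ∫ p, f p ∂(Pn α n) = ((n : ℝ) + 1)⁻¹ * ∑ k ∈ Finset.range (n + 1), f (Sk α k (0, 0)) := by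
  unfold Pn
  rw [integral_smul_measure, integral_finsetSum_measure]
  · simp only [integral_dirac]
    rw [smul_eq_mul]
    congr 1
    rw [ENNReal.toReal_inv, ENNReal.toReal_natCast]
    push_cast
    rfl
  · intro i _
    exact f.integrable _

lemma Pn_one (α : Z) (n : ℕ) {M : Set (Z × Z)} (hM : MeasurableSet M)
    (h : ∀ k : ℤ, Sk α k (0, 0) ∈ M) : Pn α n M = 1 := by
  unfold Pn
  rw [Measure.smul_apply, Measure.finsetSum_apply]
  have : ∀ k ∈ Finset.range (n + 1), Measure.dirac (Sk α (k : ℤ) ((0 : Z), (0 : Z))) M = 1 := by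
    intro k _
    rw [Measure.dirac_apply' _ hM, Set.indicator_of_mem (h k)]
    rfl
  rw [Finset.sum_congr rfl this]
  simp only [Finset.sum_const, Finset.card_range, nsmul_eq_mul, mul_one, smul_eq_mul]
  exact ENNReal.inv_mul_cancel (by simp) (by simp)

/-- an invariant probability measure carried by a closed set which contains the orbit -/
theorem exists_measure (α : Z) {M : Set (Z × Z)} (hM : IsClosed M)
    (h : ∀ k : ℤ, Sk α k (0, 0) ∈ M) :
    ∃ lam : Measure (Z × Z), IsProbabilityMeasure lam ∧ lam M = 1 ∧
      ∀ n : ℤ, lam.map (Sk α n) = lam := by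
  set F : Ultrafilter ℕ := hyperfilter ℕ with hF
  have hFle : (F : Filter ℕ) ≤ atTop := Nat.hyperfilter_le_atTop
  set PM : ℕ → ProbabilityMeasure (Z × Z) := fun n => ⟨Pn α n, inferInstance⟩ with hPM
  obtain ⟨P, -, hP⟩ := (isCompact_univ (X := ProbabilityMeasure (Z × Z))).ultrafilter_le_nhds
    (F.map PM) (by simp)
  have hPt : Tendsto PM F (𝓝 P) := hP
  have hint := (ProbabilityMeasure.tendsto_iff_forall_integral_tendsto.1 hPt)
  -- invariance for functions
  have hinv : ∀ f : (Z × Z) →ᵇ ℝ, ∫ p, f (Sk α 1 p) ∂(P : Measure (Z × Z)) =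
      ∫ p, f p ∂(P : Measure (Z × Z)) := by
    intro f
    set g : (Z × Z) →ᵇ ℝ := f.compContinuous ⟨Sk α 1, Sk_cont α 1⟩ with hg
    have h1 := hint g
    have h2 := hint f
    have h3 : Tendsto (fun n => ∫ p, g p ∂(PM n : Measure (Z × Z)) -
        ∫ p, f p ∂(PM n : Measure (Z × Z))) F (𝓝 0) := by
      apply Tendsto.mono_left _ hFle
      have h4 : ∀ n : ℕ, ∫ p, g p ∂(PM n : Measure (Z × Z)) -
          ∫ p, f p ∂(PM n : Measure (Z × Z)) =
          ((n : ℝ) + 1)⁻¹ * (f (Sk α (n + 1 : ℕ) (0, 0)) - f (Sk α (0 : ℕ) (0, 0))) := by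
        intro n
        change ∫ p, g p ∂(Pn α n) - ∫ p, f p ∂(Pn α n) = _
        rw [Pn_integral, Pn_integral, ← mul_sub, ← Finset.sum_range_sub (fun k : ℕ =>
          f (Sk α k (0, 0))), ← Finset.sum_sub_distrib]
        congr 1
        apply Finset.sum_congr rfl
        intro k _
        congr 1
        change f (Sk α 1 (Sk α k (0, 0))) = _
        rw [← Sk_add]
        congr 2
        push_cast
        ring
      have h5 : Tendsto (fun n : ℕ => ((n : ℝ) + 1)⁻¹ * (2 * ‖f‖)) atTop (𝓝 0) := by
        have := (tendsto_one_div_add_atTop_nhds_zero_nat (𝕜 := ℝ)).mul_const (2 * ‖f‖)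
        simpa [one_div] using this
      refine squeeze_zero_norm (fun n => ?_) h5
      rw [h4, norm_mul, Real.norm_of_nonneg (by positivity)]
      apply mul_le_mul_of_nonneg_left _ (by positivity)
      refine (norm_sub_le _ _).trans ?_
      have := f.norm_coe_le_norm (Sk α (n + 1 : ℕ) (0, 0))
      have := f.norm_coe_le_norm (Sk α (0 : ℕ) (0, 0))
      linarith
    have h6 := tendsto_nhds_unique h3 (h1.sub h2)
    have h7 : ∫ p, g p ∂(P : Measure (Z × Z)) = ∫ p, f (Sk α 1 p) ∂(P : Measure (Z × Z)) := rfl
    rw [← h7]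
    linarith
  have hm : ∀ n : ℤ, Measurable (Sk α n) := fun n => (Sk_cont α n).measurable
  -- invariance of the measure
  have hone : (P : Measure (Z × Z)).map (Sk α 1) = P := by
    have : IsFiniteMeasure ((P : Measure (Z × Z)).map (Sk α 1)) :=
      Measure.isFiniteMeasure_map _ _
    apply ext_of_forall_integral_eq_of_IsFiniteMeasure
    intro f
    rw [integral_map (hm 1).aemeasurable f.continuous.aestronglyMeasurable]
    exact hinv f
  have hneg : (P : Measure (Z × Z)).map (Sk α (-1)) = P := by
    conv_lhs => rw [← hone]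
    rw [Measure.map_map (hm _) (hm _)]
    have : Sk α (-1) ∘ Sk α 1 = id := by
      funext p
      rw [Function.comp_apply, ← Sk_add]
      have : (-1 : ℤ) + 1 = 0 := by norm_num
      rw [this, Sk_zero]; rfl
    rw [this, Measure.map_id]
  refine ⟨P, inferInstance, ?_, ?_⟩
  · have h1 := ProbabilityMeasure.limsup_measure_closed_le_of_tendsto hPt hM
    have h2 : (fun n => (PM n : Measure (Z × Z)) M) = fun _ => (1 : ℝ≥0∞) := by
      funext n
      exact Pn_one α n hM.measurableSet h
    rw [h2, limsup_const] at h1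
    exact le_antisymm prob_le_one h1
  · intro n
    induction n using Int.induction_on with
    | zero =>
      have : Sk α 0 = id := by funext p; exact Sk_zero α p
      rw [this, Measure.map_id]
    | succ k ih =>
      have : Sk α ((k : ℤ) + 1) = Sk α 1 ∘ Sk α k := by
        funext p
        rw [Function.comp_apply, ← Sk_add, add_comm]
      rw [this, ← Measure.map_map (hm _) (hm _), ih, hone]
    | pred k ih =>
      have : Sk α (-(k : ℤ) - 1) = Sk α (-1) ∘ Sk α (-(k : ℤ)) := by
        funext p
        rw [Function.comp_apply, ← Sk_add, add_comm, sub_eq_add_neg]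
      rw [this, ← Measure.map_map (hm _) (hm _), ih, hneg]

/-- a probability measure invariant under a dense translation is the Haar measure -/
theorem eq_haar (μ : Measure Z) [IsProbabilityMeasure μ] [μ.IsAddHaarMeasure] (α : Z)
    (hα : DenseRange (fun n : ℤ => n • α)) (ν : Measure Z) [IsProbabilityMeasure ν]
    (hν : ∀ n : ℤ, ν.map (fun z => z + n • α) = ν) : ν = μ := by
  have hall : ∀ c : Z, ν.map (fun z => z + c) = ν := by
    intro c
    have : IsFiniteMeasure (ν.map (fun z => z + c)) := Measure.isFiniteMeasure_map _ _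
    apply ext_of_forall_integral_eq_of_IsFiniteMeasure
    intro f
    rw [integral_map (measurable_add_const c).aemeasurable f.continuous.aestronglyMeasurable]
    have hcont : Continuous fun c : Z => ∫ z, f (z + c) ∂ν := by
      apply continuous_of_dominated (bound := fun _ => ‖f‖)
      · intro c
        exact (f.continuous.comp (continuous_id.add continuous_const)).aestronglyMeasurable
      · intro c
        exact Eventually.of_forall fun z => f.norm_coe_le_norm _
      · exact integrable_const _
      · exact Eventually.of_forall fun z => f.continuous.comp (continuous_const.add continuous_id)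
    have hclosed : IsClosed {c : Z | ∫ z, f (z + c) ∂ν = ∫ z, f z ∂ν} :=
      isClosed_eq hcont continuous_const
    have hsub : Set.range (fun n : ℤ => n • α) ⊆ {c : Z | ∫ z, f (z + c) ∂ν = ∫ z, f z ∂ν} := by
      rintro _ ⟨n, rfl⟩
      have h1 := integral_map (μ := ν) (φ := fun z => z + n • α) (f := f)
        (measurable_add_const _).aemeasurable f.continuous.aestronglyMeasurable
      rw [hν n] at h1
      exact h1.symm
    have := closure_minimal hsub hclosed
    rw [hα.closure_eq] at this
    exact this (Set.mem_univ c)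
  have : ν.IsAddLeftInvariant := by
    constructor
    intro c
    have : (fun z => c + z) = fun z => z + c := by funext z; exact add_comm _ _
    rw [this]; exact hall c
  have : ν.IsAddHaarMeasure := by
    apply Measure.isAddHaarMeasure_of_isCompact_nonempty_interior ν Set.univ isCompact_univ
    · rw [interior_univ]; exact Set.univ_nonempty
    · rw [measure_univ]; exact one_ne_zero
    · rw [measure_univ]; exact ENNReal.one_ne_top
  exact Measure.isAddHaarMeasure_eq_of_isProbabilityMeasure ν μ

end

open Pool.Agent.W634.BQ in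
theorem rec : S_rec := by
  intro Z _ _ _ _ _ _ _ _ μ _ _ α hα
  obtain ⟨M, hMc, hMi, hM0, hret⟩ := exists_minimal α hα
  obtain ⟨lam, hlam, hlamM, hinv⟩ := exists_measure α hMc (fun k => hMi k _ hM0)
  refine ⟨lam, hlam, ?_, ?_, ?_⟩
  · have : IsProbabilityMeasure (lam.map Prod.fst) :=
      Measure.isProbabilityMeasure_map measurable_fst.aemeasurable
    apply eq_haar μ α hα
    intro n
    rw [Measure.map_map (measurable_add_const _) measurable_fst]
    have h1 : (fun z : Z => z + n • α) ∘ Prod.fst = Prod.fst ∘ Sk α n := by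
      funext p; rfl
    rw [h1, ← Measure.map_map measurable_fst (Sk_cont α n).measurable, hinv]
  · intro O hO h0
    obtain ⟨K, hK⟩ := hret O hO ⟨(0, 0), h0, hM0⟩
    by_contra hcon
    have hz : lam O = 0 := le_antisymm (not_lt.1 hcon) bot_le
    have hcov : M ⊆ ⋃ n : ℤ, Sk α n ⁻¹' O := by
      intro p hp
      obtain ⟨n, _, hn⟩ := hK p hp
      exact Set.mem_iUnion.2 ⟨n, hn⟩
    have h1 : lam (⋃ n : ℤ, Sk α n ⁻¹' O) = 0 := by
      rw [measure_iUnion_null_iff]
      intro n
      rw [← Measure.map_apply (Sk_cont α n).measurable hO.measurableSet, hinv, hz]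
    have h2 := measure_mono_null hcov h1
    rw [hlamM] at h2
    exact one_ne_zero h2
  · intro O hO hpos
    have hne : (O ∩ M).Nonempty := by
      by_contra hcon
      rw [Set.not_nonempty_iff_eq_empty] at hcon
      have h1 : O ⊆ Mᶜ := by
        intro p hp hpM
        have : p ∈ O ∩ M := ⟨hp, hpM⟩
        rw [hcon] at this
        exact this
      have h2 : lam Mᶜ = 0 := by
        rw [prob_compl_eq_zero_iff hMc.measurableSet]
        exact hlamM
      exact hpos.ne' (measure_mono_null h1 h2)
    obtain ⟨K, hK⟩ := hret O hO hne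
    refine ⟨2 * K + 1, fun n => ?_⟩
    obtain ⟨m, hm, hmO⟩ := hK _ (hMi (n + K) _ hM0)
    rw [abs_le] at hm
    refine ⟨(m + K).toNat, by omega, ?_⟩
    rw [← Sk_add, Sk_origin] at hmO
    have e : (n + ((m + K).toNat : ℤ)) = m + (n + K) := by
      rw [Int.toNat_of_nonneg (by omega)]; ring
    rw [e]
    exact hmO

end Pool.Agent.W721.BQ
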