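import Pool.Agent.W634.BQ.Stms

set_option autoImplicit false

/-!
Van der Corput along the squares (helper721).
-/

namespace Pool.Agent.W721.BQ

open MeasureTheory Filter Topology Finset
open Pool.Agent.W634.BQ

section

variable {H : Type} [NormedAddCommGroup H] [InnerProductSpace ℂ H]

lemma shift_le (v : ℕ → H) (B : ℝ) (hv : ∀ n, ‖v n‖ ≤ B) (L k : ℕ) :
    ‖∑ n ∈ range L, v (n + k) - ∑ n ∈ range L, v n‖ ≤ 2 * k * B := by
  induction k with
  | zero => simp
  | succ k ih =>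
    have h1 : ∑ n ∈ range L, v (n + (k + 1)) - ∑ n ∈ range L, v n =
        (v (L + k) - v (0 + k)) + (∑ n ∈ range L, v (n + k) - ∑ n ∈ range L, v n) := by
      have h2 := Finset.sum_range_sub (fun n => v (n + k)) L
      rw [← h2, Finset.sum_sub_distrib]
      have h3 : ∀ n, v (n + 1 + k) = v (n + (k + 1)) := by
        intro n; congr 1; ring
      simp only [h3]
      abel
    rw [h1]
    have h4 : ‖v (L + k) - v (0 + k)‖ ≤ 2 * B :=
      (norm_sub_le _ _).trans (by linarith [hv (L + k), hv (0 + k)])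
    refine (norm_add_le _ _).trans ?_
    push_cast
    linarith

lemma vdc_abs (v : ℕ → H) (B : ℝ) (hB : 0 ≤ B) (hv : ∀ n, ‖v n‖ ≤ B) (L K : ℕ) (hK : 1 ≤ K)
    (D : ℝ) (hD : ∑ n ∈ range L, ∑ k ∈ range K, ∑ l ∈ range K,
      ‖(inner ℂ (v (n + k)) (v (n + l)) : ℂ)‖ ≤ L * D) :
    ‖∑ n ∈ range L, v n‖ ≤ 2 * K * B + L * √D / K := by
  have hK0 : (0 : ℝ) < K := by exact_mod_cast hK
  set w : ℕ → H := fun n => ∑ k ∈ range K, v (n + k) with hw
  set s : H := ∑ n ∈ range L, v n with hs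
  have h1 : ‖∑ n ∈ range L, w n - (K : ℂ) • s‖ ≤ 2 * K ^ 2 * B := by
    have e : ∑ n ∈ range L, w n - (K : ℂ) • s =
        ∑ k ∈ range K, (∑ n ∈ range L, v (n + k) - s) := by
      rw [Finset.sum_sub_distrib, Finset.sum_const, Finset.card_range]
      simp only [hw]
      rw [Finset.sum_comm]
      congr 1
      exact Nat.cast_smul_eq_nsmul ℂ K s
    rw [e]
    refine (norm_sum_le _ _).trans ?_
    have h2 : ∀ k ∈ range K, ‖∑ n ∈ range L, v (n + k) - s‖ ≤ 2 * K * B := by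
      intro k hk
      refine (shift_le v B hv L k).trans ?_
      have : (k : ℝ) ≤ K := by exact_mod_cast (mem_range.1 hk).le
      gcongr
    refine (Finset.sum_le_sum h2).trans ?_
    rw [Finset.sum_const, Finset.card_range, nsmul_eq_mul]
    exact le_of_eq (by ring)
  have h2 : ∀ n, ‖w n‖ ^ 2 ≤ ∑ k ∈ range K, ∑ l ∈ range K,
      ‖(inner ℂ (v (n + k)) (v (n + l)) : ℂ)‖ := by
    intro n
    have e : ‖w n‖ ^ 2 = ‖(inner ℂ (w n) (w n) : ℂ)‖ := by
      rw [inner_self_eq_norm_sq_to_K]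
      simp
    rw [e]
    simp only [hw]
    rw [sum_inner]
    refine (norm_sum_le _ _).trans (Finset.sum_le_sum fun k _ => ?_)
    rw [inner_sum]
    exact norm_sum_le _ _
  have h3 : ‖∑ n ∈ range L, w n‖ ≤ L * √D := by
    have h4 : ‖∑ n ∈ range L, w n‖ ^ 2 ≤ L * (L * D) := by
      calc ‖∑ n ∈ range L, w n‖ ^ 2 ≤ (∑ n ∈ range L, ‖w n‖) ^ 2 := by
            gcongr; exact norm_sum_le _ _
        _ ≤ (range L).card * ∑ n ∈ range L, ‖w n‖ ^ 2 := sq_sum_le_card_mul_sum_sq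
        _ ≤ L * (L * D) := by
            rw [Finset.card_range]
            gcongr
            exact (Finset.sum_le_sum fun n _ => h2 n).trans hD
    have h5 : ‖∑ n ∈ range L, w n‖ ≤ √(L * (L * D)) := Real.le_sqrt_of_sq_le h4
    refine h5.trans (le_of_eq ?_)
    rw [← mul_assoc, Real.sqrt_mul (by positivity), Real.sqrt_mul_self (by positivity)]
  have h6 : (K : ℝ) * ‖s‖ ≤ 2 * K ^ 2 * B + L * √D := by
    have e : (K : ℝ) * ‖s‖ = ‖(K : ℂ) • s‖ := by
      rw [norm_smul]; simp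
    rw [e]
    have : (K : ℂ) • s = ∑ n ∈ range L, w n - (∑ n ∈ range L, w n - (K : ℂ) • s) := by abel
    rw [this]
    refine (norm_sub_le _ _).trans ?_
    linarith
  have h7 : ‖s‖ = (K * ‖s‖) / K := by field_simp
  rw [h7]
  calc (K * ‖s‖) / K ≤ (2 * K ^ 2 * B + L * √D) / K := by gcongr
    _ = _ := by field_simp

end

theorem vdc (hwm : S_wm) : S_vdc := by
  intro H _ _ _ U f h hf ε hε
  set B0 : ℝ := ‖f‖ * ‖h‖ with hB0d
  set B : ℝ := ‖f‖ ^ 2 * ‖h‖ with hBd
  have hB0 : 0 ≤ B0 := by positivity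
  have hB : 0 ≤ B := by positivity
  set T : ℝ := (ε / (2 * (‖h‖ + 1))) ^ 2 with hTd
  have hh1 : 0 < ‖h‖ + 1 := by positivity
  have hT : 0 < T := by positivity
  obtain ⟨K, hK⟩ := exists_nat_ge (2 * B ^ 2 / T + 1)
  have hK1 : 1 ≤ K := by
    have : (1 : ℝ) ≤ K := by
      have : 0 ≤ 2 * B ^ 2 / T := by positivity
      linarith
    exact_mod_cast this
  have hK0 : (0 : ℝ) < K := by exact_mod_cast hK1
  have hKB : B ^ 2 * K ≤ T / 2 * K ^ 2 := by
    have h1 : 2 * B ^ 2 / T ≤ K := by linarith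
    rw [div_le_iff₀ hT] at h1
    nlinarith
  set ε' : ℝ := T / (4 * K * (B0 ^ 2 + 1)) with hε'd
  have hε' : 0 < ε' := by positivity
  have hεB : 2 * K ^ 3 * B0 ^ 2 * ε' ≤ T / 2 * K ^ 2 := by
    have h1 : ε' * (4 * K * (B0 ^ 2 + 1)) = T := by rw [hε'd]; field_simp
    have h2 : 2 * K * B0 ^ 2 * ε' ≤ T / 2 := by
      have : 0 ≤ ε' * K := by positivity
      nlinarith
    nlinarith [sq_nonneg (K : ℝ)]
  obtain ⟨L1, hL1⟩ := hwm H U f hf ε' hε'
  obtain ⟨L2, hL2⟩ := exists_nat_ge (4 * K * B * ‖h‖ / ε)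
  refine ⟨max L1 L2, fun L hL N => ?_⟩
  have hLL1 : L1 ≤ L := (le_max_left _ _).trans hL
  have hLL2 : (4 * K * B * ‖h‖ / ε) ≤ L := hL2.trans (by exact_mod_cast (le_max_right _ _).trans hL)
  -- correlations
  set a : ℤ → ℝ := fun j => ‖(inner ℂ ((U ^ j) f) f : ℂ)‖ with ha
  have ha0 : ∀ j, 0 ≤ a j := fun j => norm_nonneg _
  have hshift : ∀ i j : ℤ, ∀ x y : H, (inner ℂ ((U ^ i) x) ((U ^ j) y) : ℂ) =
      inner ℂ ((U ^ (i - j)) x) y := by
    intro i j x y
    have e : (U ^ i) x = (U ^ j) ((U ^ (i - j)) x) := by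
      have : U ^ i = U ^ j * U ^ (i - j) := by rw [← zpow_add]; congr 1; ring
      rw [this]; rfl
    rw [e, LinearIsometryEquiv.inner_map_map]
  have haneg : ∀ j, a (-j) = a j := by
    intro j
    have h1 := hshift 0 j f f
    rw [zpow_zero, zero_sub] at h1
    simp only [ha]
    rw [← h1]
    exact norm_inner_symm _ _
  -- arithmetic progressions
  have hap : ∀ (d : ℕ) (j0 : ℤ), 1 ≤ d → d ≤ K →
      ∑ n ∈ range L, a (j0 + 2 * d * n) ≤ ε' * (2 * K * L) := by
    intro d j0 hd1 hdK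
    have h1 : ∑ n ∈ range L, a (j0 + 2 * d * n) ≤ ∑ m ∈ range (2 * K * L), a (j0 + m) := by
      have hinj : Set.InjOn (fun n : ℕ => 2 * d * n) (range L) := by
        intro x _ y _ hxy
        have : 0 < 2 * d := by omega
        exact Nat.eq_of_mul_eq_mul_left this hxy
      have h2 : ∑ n ∈ range L, a (j0 + 2 * d * n) =
          ∑ m ∈ (range L).image (fun n : ℕ => 2 * d * n), a (j0 + m) := by
        rw [Finset.sum_image hinj]
        apply Finset.sum_congr rfl
        intro n _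
        push_cast
        rfl
      rw [h2]
      apply Finset.sum_le_sum_of_subset_of_nonneg
      · intro m hm
        rw [mem_image] at hm
        obtain ⟨n, hn, rfl⟩ := hm
        rw [mem_range] at hn ⊢
        calc 2 * d * n ≤ 2 * K * n := by gcongr
          _ < 2 * K * L := by
            apply Nat.mul_lt_mul_of_pos_left hn
            omega
      · intro m _ _
        exact ha0 _
    refine h1.trans ?_
    have hle : L1 ≤ 2 * K * L := by
      calc L1 ≤ L := hLL1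
        _ ≤ 2 * K * L := by
          have : 1 ≤ 2 * K := by omega
          exact Nat.le_mul_of_pos_left L (by omega)
    have h3 := hL1 (2 * K * L) hle j0
    push_cast at h3
    exact h3
  -- the vectors
  set x : ℕ → ℂ := fun n => inner ℂ h ((U ^ ((N + n) ^ 2)) f) with hx
  set v : ℕ → H := fun n => (starRingEnd ℂ) (x n) • (U ^ ((N + n) ^ 2)) f with hv
  have hxb : ∀ n, ‖x n‖ ≤ B0 := by
    intro n
    refine (norm_inner_le_norm _ _).trans ?_
    rw [LinearIsometryEquiv.norm_map, mul_comm]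
  have hvb : ∀ n, ‖v n‖ ≤ B := by
    intro n
    simp only [hv]
    rw [norm_smul, LinearIsometryEquiv.norm_map, RCLike.norm_conj]
    calc ‖x n‖ * ‖f‖ ≤ B0 * ‖f‖ := by gcongr; exact hxb n
      _ = B := by rw [hB0d, hBd]; ring
  have hvin : ∀ m n, ‖(inner ℂ (v m) (v n) : ℂ)‖ ≤ B0 ^ 2 * a ((N + m) ^ 2 - (N + n) ^ 2) := by
    intro m n
    simp only [hv]
    rw [inner_smul_left, inner_smul_right, norm_mul, norm_mul, RCLike.norm_conj, RCLike.norm_conj,
      RCLike.norm_conj, hshift, ← mul_assoc]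
    have := hxb m
    have := hxb n
    have h1 : ‖x m‖ * ‖x n‖ ≤ B0 ^ 2 := by
      rw [sq]
      exact mul_le_mul (hxb m) (hxb n) (norm_nonneg _) hB0
    exact mul_le_mul_of_nonneg_right h1 (ha0 _)
  -- the double sum
  have hoff : ∀ k ∈ range K, ∀ l ∈ range K, ∑ n ∈ range L,
      ‖(inner ℂ (v (n + k)) (v (n + l)) : ℂ)‖ ≤
        (if k = l then L * B ^ 2 else 0) + B0 ^ 2 * (ε' * (2 * K * L)) := by
    intro k hk l hl
    rw [mem_range] at hk hl
    have hpos : 0 ≤ B0 ^ 2 * (ε' * (2 * K * L)) := by positivity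
    by_cases hkl : k = l
    · rw [if_pos hkl]
      subst hkl
      have h1 : ∑ n ∈ range L, ‖(inner ℂ (v (n + k)) (v (n + k)) : ℂ)‖ ≤
          ∑ n ∈ range L, B ^ 2 := by
        apply Finset.sum_le_sum
        intro n _
        refine (norm_inner_le_norm _ _).trans ?_
        rw [sq]
        exact mul_le_mul (hvb _) (hvb _) (norm_nonneg _) hB
      rw [Finset.sum_const, Finset.card_range, nsmul_eq_mul] at h1
      linarith
    · rw [if_neg hkl, zero_add]
      have h1 : ∑ n ∈ range L, ‖(inner ℂ (v (n + k)) (v (n + l)) : ℂ)‖ ≤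
          B0 ^ 2 * ∑ n ∈ range L, a ((N + (n + k : ℕ)) ^ 2 - (N + (n + l : ℕ)) ^ 2) := by
        rw [Finset.mul_sum]
        exact Finset.sum_le_sum fun n _ => hvin _ _
      refine h1.trans ?_
      gcongr
      rcases lt_or_gt_of_ne hkl with hlt | hgt
      · -- k < l
        have h2 := hap (l - k) (-(((k : ℤ) - l) * (2 * N + k + l))) (by omega) (by omega)
        refine le_trans (le_of_eq ?_) h2
        apply Finset.sum_congr rfl
        intro n _
        rw [← haneg]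
        congr 1
        push_cast [Nat.cast_sub hlt.le]
        ring
      · have h2 := hap (k - l) (((k : ℤ) - l) * (2 * N + k + l)) (by omega) (by omega)
        refine le_trans (le_of_eq ?_) h2
        apply Finset.sum_congr rfl
        intro n _
        congr 1
        push_cast [Nat.cast_sub hgt.le]
        ring
  have hD : ∑ n ∈ range L, ∑ k ∈ range K, ∑ l ∈ range K,
      ‖(inner ℂ (v (n + k)) (v (n + l)) : ℂ)‖ ≤ L * (K ^ 2 * T) := by
    rw [Finset.sum_comm]
    have h1 : ∀ k ∈ range K, ∑ n ∈ range L, ∑ l ∈ range K,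
        ‖(inner ℂ (v (n + k)) (v (n + l)) : ℂ)‖ ≤ L * B ^ 2 + K * (B0 ^ 2 * (ε' * (2 * K * L))) := by
      intro k hk
      rw [Finset.sum_comm]
      refine (Finset.sum_le_sum fun l hl => hoff k hk l hl).trans ?_
      rw [Finset.sum_add_distrib, Finset.sum_const, Finset.card_range, nsmul_eq_mul,
        Finset.sum_ite_eq, if_pos hk]
    refine (Finset.sum_le_sum h1).trans ?_
    rw [Finset.sum_const, Finset.card_range, nsmul_eq_mul]
    have hL0 : (0 : ℝ) ≤ L := Nat.cast_nonneg L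
    have e1 : (K : ℝ) * (L * B ^ 2 + K * (B0 ^ 2 * (ε' * (2 * K * L)))) =
        L * (B ^ 2 * K + 2 * K ^ 3 * B0 ^ 2 * ε') := by ring
    rw [e1]
    apply mul_le_mul_of_nonneg_left _ hL0
    linarith
  have hmain := vdc_abs v B hB hvb L K hK1 (K ^ 2 * T) hD
  -- conclusion
  have hS : ((∑ n ∈ range L, ‖x n‖ ^ 2 : ℝ) : ℂ) = inner ℂ h (∑ n ∈ range L, v n) := by
    rw [inner_sum]
    push_cast
    apply Finset.sum_congr rfl
    intro n _
    simp only [hv]
    rw [inner_smul_right]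
    rw [← Complex.conj_mul']
  have hS2 : ∑ n ∈ range L, ‖x n‖ ^ 2 ≤ ‖h‖ * ‖∑ n ∈ range L, v n‖ := by
    have h1 : ∑ n ∈ range L, ‖x n‖ ^ 2 = ‖((∑ n ∈ range L, ‖x n‖ ^ 2 : ℝ) : ℂ)‖ := by
      rw [Complex.norm_real, Real.norm_of_nonneg (Finset.sum_nonneg fun n _ => sq_nonneg _)]
    rw [h1, hS]
    exact norm_inner_le_norm _ _
  refine hS2.trans ?_
  have hsq : √((K : ℝ) ^ 2 * T) = K * (ε / (2 * (‖h‖ + 1))) := by
    rw [Real.sqrt_mul (by positivity), Real.sqrt_sq hK0.le, hTd,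
      Real.sqrt_sq (by positivity)]
  rw [hsq] at hmain
  have h8 : (L : ℝ) * (K * (ε / (2 * (‖h‖ + 1)))) / K = L * (ε / (2 * (‖h‖ + 1))) := by
    field_simp
  rw [h8] at hmain
  have hh0 : 0 ≤ ‖h‖ := norm_nonneg h
  have h9 : ‖h‖ * ‖∑ n ∈ range L, v n‖ ≤ ‖h‖ * (2 * K * B + L * (ε / (2 * (‖h‖ + 1)))) :=
    mul_le_mul_of_nonneg_left hmain hh0
  refine h9.trans ?_
  have h10 : ‖h‖ * (2 * K * B) ≤ ε / 2 * L := by
    rw [div_le_iff₀ hε] at hLL2
    linarith
  have h11 : ‖h‖ * (L * (ε / (2 * (‖h‖ + 1)))) ≤ ε / 2 * L := by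
    have e : ‖h‖ * (L * (ε / (2 * (‖h‖ + 1)))) = (‖h‖ / (‖h‖ + 1)) * (ε / 2 * L) := by
      field_simp
    rw [e]
    have h12 : ‖h‖ / (‖h‖ + 1) ≤ 1 := by
      rw [div_le_one hh1]; linarith
    have : 0 ≤ ε / 2 * (L : ℝ) := by positivity
    nlinarith
  rw [mul_add]
  linarith

end Pool.Agent.W721.BQ
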