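import Pool.Agent.W634.BQ.Stms

set_option autoImplicit false

/-!
Minimal sets of the skew product `(x, y) ↦ (x + α, y + 2x + α)` (helper721).
-/

namespace Pool.Agent.W721.BQ

open Filter Topology Set

section

variable {Z : Type} [AddCommGroup Z]

/-- the iterates of the skew product -/
def Sk (α : Z) (n : ℤ) (p : Z × Z) : Z × Z :=
  (p.1 + n • α, p.2 + (2 * n) • p.1 + (n ^ 2) • α)

lemma Sk_zero (α : Z) (p : Z × Z) : Sk α 0 p = p := by
  simp [Sk]

lemma Sk_add (α : Z) (m n : ℤ) (p : Z × Z) : Sk α (m + n) p = Sk α m (Sk α n p) := by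
  unfold Sk
  apply Prod.ext
  · simp only
    rw [add_smul]
    abel
  · simp only
    rw [smul_add, ← mul_smul]
    have h1 : (m + n) ^ 2 = m ^ 2 + n ^ 2 + 2 * m * n := by ring
    rw [h1, add_smul, add_smul, mul_add, add_smul]
    abel

lemma Sk_origin (α : Z) (n : ℤ) : Sk α n (0, 0) = (n • α, (n ^ 2) • α) := by
  simp [Sk]

/-- invariant sets -/
def Inv (α : Z) (C : Set (Z × Z)) : Prop := ∀ (n : ℤ), ∀ p ∈ C, Sk α n p ∈ C

variable [TopologicalSpace Z] [IsTopologicalAddGroup Z]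

lemma Sk_cont (α : Z) (n : ℤ) : Continuous (Sk α n) := by
  unfold Sk
  exact (continuous_fst.add continuous_const).prodMk
    ((continuous_snd.add (continuous_fst.zsmul _)).add continuous_const)

/-- a minimal set which contains the origin, and the return times -/
theorem exists_minimal [CompactSpace Z] [T2Space Z] (α : Z)
    (hα : DenseRange (fun n : ℤ => n • α)) :
    ∃ M : Set (Z × Z), IsClosed M ∧ Inv α M ∧ (0, 0) ∈ M ∧
      ∀ O : Set (Z × Z), IsOpen O → (O ∩ M).Nonempty →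
        ∃ K : ℕ, ∀ p ∈ M, ∃ n : ℤ, |n| ≤ K ∧ Sk α n p ∈ O := by
  -- a minimal set
  set 𝒞 : Set (Set (Z × Z)) := {C | IsClosed C ∧ C.Nonempty ∧ Inv α C} with h𝒞
  obtain ⟨M1, -, hM1⟩ := zorn_superset_nonempty 𝒞 (by
    intro c hc hchain hne
    have : Nonempty c := hne.to_subtype
    refine ⟨⋂₀ c, ⟨isClosed_sInter fun s hs => (hc hs).1, ?_, ?_⟩, fun s hs => sInter_subset_of_mem hs⟩
    · apply IsCompact.nonempty_sInter_of_directed_nonempty_isCompact_isClosed
      · exact IsChain.directedOn (r := fun a b : Set (Z × Z) => a ⊇ b) hchain.symm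
      · exact fun s hs => (hc hs).2.1
      · exact fun s hs => (hc hs).1.isCompact
      · exact fun s hs => (hc hs).1
    · intro n p hp s hs
      exact (hc hs).2.2 n p (hp s hs)) univ
    ⟨isClosed_univ, univ_nonempty, fun n p _ => mem_univ _⟩
  obtain ⟨⟨hM1c, hM1n, hM1i⟩, hM1min⟩ := hM1
  -- the projection is everything
  have hproj : Prod.fst '' M1 = univ := by
    have hc : IsClosed (Prod.fst '' M1) := (hM1c.isCompact.image continuous_fst).isClosed
    obtain ⟨p, hp⟩ := hM1n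
    have h1 : range (fun n : ℤ => p.1 + n • α) ⊆ Prod.fst '' M1 := by
      rintro _ ⟨n, rfl⟩
      exact ⟨Sk α n p, hM1i n p hp, rfl⟩
    have h2 : Dense (range (fun n : ℤ => p.1 + n • α)) := by
      have := (Homeomorph.addLeft p.1).surjective.denseRange.comp hα
        (Homeomorph.addLeft p.1).continuous
      exact this
    rw [← univ_subset_iff, ← h2.closure_eq]
    exact closure_minimal h1 hc
  obtain ⟨⟨x0, g⟩, hg, hx0⟩ : (0 : Z) ∈ Prod.fst '' M1 := by rw [hproj]; trivial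
  simp only at hx0
  subst hx0
  -- translate
  have hR : ∀ (c : Z) (n : ℤ) (p : Z × Z), Sk α n (p.1, p.2 + c) = ((Sk α n p).1, (Sk α n p).2 + c) := by
    intro c n p
    unfold Sk
    apply Prod.ext
    · rfl
    · simp only; abel
  have hRc : ∀ c : Z, Continuous fun p : Z × Z => (p.1, p.2 + c) := fun c =>
    continuous_fst.prodMk (continuous_snd.add continuous_const)
  set M : Set (Z × Z) := (fun p : Z × Z => (p.1, p.2 + g)) ⁻¹' M1 with hM
  have hMc : IsClosed M := hM1c.preimage (hRc g)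
  have hMi : Inv α M := by
    intro n p hp
    change ((Sk α n p).1, (Sk α n p).2 + g) ∈ M1
    rw [← hR]
    exact hM1i n _ hp
  have hM0 : ((0 : Z), (0 : Z)) ∈ M := by
    change ((0 : Z), (0 : Z) + g) ∈ M1
    rw [zero_add]; exact hg
  refine ⟨M, hMc, hMi, hM0, ?_⟩
  intro O hO hOM
  -- every point of `M` enters `O`
  have hent : ∀ p ∈ M, ∃ n : ℤ, Sk α n p ∈ O := by
    by_contra hcon
    push Not at hcon
    obtain ⟨p, hp, hpO⟩ := hcon
    set C : Set (Z × Z) := M \ ⋃ n : ℤ, Sk α n ⁻¹' O with hC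
    have hCc : IsClosed C := hMc.sdiff (isOpen_iUnion fun n => hO.preimage (Sk_cont α n))
    have hpC : p ∈ C := by
      refine ⟨hp, ?_⟩
      rw [mem_iUnion]
      rintro ⟨n, hn⟩
      exact hpO n hn
    have hCi : Inv α C := by
      rintro n q ⟨hq, hqO⟩
      refine ⟨hMi n q hq, ?_⟩
      rw [mem_iUnion]
      rintro ⟨m, hm⟩
      apply hqO
      rw [mem_iUnion]
      refine ⟨m + n, ?_⟩
      rw [mem_preimage, Sk_add]
      exact hm
    -- move back to `M1`
    set C1 : Set (Z × Z) := (fun p : Z × Z => (p.1, p.2 + -g)) ⁻¹' C with hC1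
    have hC1mem : C1 ∈ 𝒞 := by
      refine ⟨hCc.preimage (hRc (-g)), ⟨(p.1, p.2 + g), ?_⟩, ?_⟩
      · change (p.1, p.2 + g + -g) ∈ C
        rw [add_neg_cancel_right]; exact hpC
      · intro n q hq
        change ((Sk α n q).1, (Sk α n q).2 + -g) ∈ C
        rw [← hR]
        exact hCi n _ hq
    have hsub : C1 ⊆ M1 := by
      intro q hq
      have h1 : (q.1, q.2 + -g) ∈ M := hq.1
      have h2 : (q.1, q.2 + -g + g) ∈ M1 := h1
      rwa [neg_add_cancel_right] at h2
    have hsub2 : M1 ⊆ C1 := hM1min hC1mem hsub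
    obtain ⟨q, hqO, hqM⟩ := hOM
    have h1 : (q.1, q.2 + g) ∈ C1 := hsub2 hqM
    have h2 : (q.1, q.2 + g + -g) ∈ C := h1
    rw [add_neg_cancel_right] at h2
    apply h2.2
    rw [mem_iUnion]
    refine ⟨0, ?_⟩
    rw [mem_preimage, Sk_zero]
    exact hqO
  -- compactness
  have hcov : M ⊆ ⋃ n : ℤ, Sk α n ⁻¹' O := by
    intro p hp
    obtain ⟨n, hn⟩ := hent p hp
    exact mem_iUnion.2 ⟨n, hn⟩
  obtain ⟨t, ht⟩ := hMc.isCompact.elim_finite_subcover _
    (fun n => hO.preimage (Sk_cont α n)) hcov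
  refine ⟨t.sup Int.natAbs, fun p hp => ?_⟩
  obtain ⟨n, hn, hn2⟩ := mem_iUnion₂.1 (ht hp)
  refine ⟨n, ?_, hn2⟩
  have := Finset.le_sup (f := Int.natAbs) hn
  rw [Int.abs_eq_natAbs]
  exact_mod_cast this

end

end Pool.Agent.W721.BQ
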